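import Pool.Agent.MP_47b204_mp.H4D.Line

set_option autoImplicit false

namespace Pool.Agent.MP_47b204_mp.H4D

open Filter Topology Set
open Pool.Agent.MP_47b204_mp.H45 hiding bb_of_esc not_bb_of_bd

lemma DD_near {t : ℝ} (ht : |t| ≤ 1 / 2) : ∃ μ : ℝ, 1 / 2 ≤ μ ∧ μ ≤ 2 ∧ DD (1 + t) = μ * t := by
  obtain ⟨h1, h2⟩ := abs_le.1 ht
  have p0 : 0 < 1 + t := by linarith
  refine ⟨(2 + t) / (2 * (1 + t)), ?_, ?_, ?_⟩
  · rw [le_div_iff₀ (by linarith)]; linarith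
  · rw [div_le_iff₀ (by linarith)]; linarith
  · rw [DD]; field_simp; ring

/-- differentiability across the diagonal forces the dimension not to grow to the left -/
lemma left_of_diff {q : ℝ} {v ω : ℤ → Bool} (hq : 600 ≤ q) (hv : ∀ k : ℕ, v k = fibSeq k)
    (hω : ω ∈ hull v) (hd : DifferentiableAt ℝ (fun t => dm (spec (1 + t) q ω)) 0) {r η : ℝ}
    (hr : 0 < r) (hη : 0 < η) :
    ∃ s, 0 < s ∧ s < η ∧ GG (q ^ 2 / 4 - s) ≤ GG (q ^ 2 / 4) + r * s := by
  obtain ⟨f', hf⟩ : ∃ f', HasDerivAt (fun t => dm (spec (1 + t) q ω)) f' 0 := ⟨_, hd.hasDerivAt⟩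
  obtain ⟨δ, d0, hδ⟩ := Metric.eventually_nhds_iff.1
    (hf.isLittleO.bound (show 0 < r / 4 by positivity))
  have q0 : 0 < q := by linarith
  obtain ⟨τ, t0, t1, t2, t3⟩ : ∃ τ : ℝ, 0 < τ ∧ τ < δ ∧ q * τ ≤ 1 / 4 ∧ 4 * q ^ 2 * τ < η := by
    refine ⟨min (δ / 2) (min (1 / (4 * q)) (η / (8 * q ^ 2))), by positivity,
      (min_le_left _ _).trans_lt (by linarith), ?_, ?_⟩
    · have := mul_le_mul_of_nonneg_left ((min_le_right (δ / 2) _).trans
        (min_le_left (1 / (4 * q)) (η / (8 * q ^ 2)))) q0.le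
      rwa [show q * (1 / (4 * q)) = 1 / 4 by field_simp] at this
    · have := mul_le_mul_of_nonneg_left ((min_le_right (δ / 2) _).trans
        (min_le_right (1 / (4 * q)) (η / (8 * q ^ 2)))) (show 0 ≤ 4 * q ^ 2 by positivity)
      rw [show 4 * q ^ 2 * (η / (8 * q ^ 2)) = η / 2 by field_simp; ring] at this
      linarith
  have t4 : τ ≤ 1 / 8 := by nlinarith
  have up := dm_spec_one hq hv hω
  have key : ∀ t, |t| = τ → f' * t ≤ 0 → Par (1 + t) q ∧
      dm (spec (1 + t) q ω) ≤ GG (q ^ 2 / 4) + r / 4 * τ := by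
    intro t ht hs
    obtain ⟨μ, m1, m2, m3⟩ := DD_near (t := t) (by linarith)
    have h1 := hδ (y := t) (by rw [Real.dist_eq, sub_zero]; linarith)
    simp only [sub_zero, add_zero, Real.norm_eq_abs, smul_eq_mul, ht] at h1
    have h2 := (abs_le.1 h1).2
    have h3 := abs_le.1 ht.le
    refine ⟨⟨⟨by linarith, by linarith⟩, hq, ?_⟩, by linarith⟩
    rw [m3, abs_mul, abs_mul, ht, abs_of_pos q0, abs_of_pos (a := μ) (by linarith)]
    nlinarith
  rcases le_total f' 0 with hs | hs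
  · obtain ⟨P, h1⟩ := key τ (abs_of_pos t0) (by nlinarith)
    obtain ⟨μ, m1, m2, m3⟩ := DD_near (t := τ) (by rw [abs_of_pos t0]; linarith)
    obtain ⟨κ, k1, k2, k3⟩ := P.lowB hv hω
    have a1 : τ / 2 ≤ DD (1 + τ) := by nlinarith
    have a2 : DD (1 + τ) ≤ 2 * τ := by nlinarith
    generalize DD (1 + τ) = d at a1 a2 k3
    have a3 : d ≤ κ * d - d ^ 2 := by nlinarith
    have a4 : κ * d ≤ 2 * q ^ 2 * (2 * τ) := mul_le_mul k2 a2 (by linarith) (by positivity)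
    refine ⟨κ * d - d ^ 2, by linarith, by nlinarith, ?_⟩
    rw [show q ^ 2 / 4 - (κ * d - d ^ 2) = d ^ 2 - κ * d + q ^ 2 / 4 by ring]
    nlinarith
  · obtain ⟨P, h1⟩ := key (-τ) (by rw [abs_neg, abs_of_pos t0]) (by nlinarith)
    obtain ⟨μ, m1, m2, m3⟩ := DD_near (t := -τ) (by rw [abs_neg, abs_of_pos t0]; linarith)
    obtain ⟨κ, k1, k2, k3⟩ := P.lowA hv hω
    have a1 : τ / 2 ≤ -DD (1 + -τ) := by nlinarith
    have a2 : -DD (1 + -τ) ≤ 2 * τ := by nlinarith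
    generalize DD (1 + -τ) = d at a1 a2 k3
    have a3 : -d / 2 ≤ κ * -d - d ^ 2 := by nlinarith
    have a4 : κ * -d ≤ 4 * (2 * τ) := mul_le_mul k2 a2 (by linarith) (by positivity)
    have a5 : 8 * τ ≤ 4 * q ^ 2 * τ := mul_le_mul_of_nonneg_right (by nlinarith) t0.le
    refine ⟨κ * -d - d ^ 2, by linarith, by nlinarith, ?_⟩
    rw [show q ^ 2 / 4 - (κ * -d - d ^ 2) = d ^ 2 + κ * d + q ^ 2 / 4 by ring]
    nlinarith

/-- corners across the diagonal at arbitrarily large coupling -/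
lemma corner (Q : ℝ) : ∃ q, Q < q ∧ 0 < q ∧ ∀ v ω : ℤ → Bool, (∀ k : ℕ, v k = fibSeq k) →
    ω ∈ hull v → ¬ DifferentiableAt ℝ (fun t => dm (spec (1 + t) q ω)) 0 := by
  by_contra hc
  push Not at hc
  obtain ⟨a, a1, a2⟩ : ∃ a : ℝ, 300 ≤ a ∧ Q ≤ 2 * a :=
    ⟨max 300 (Q / 2), le_max_left _ _, by linarith [le_max_right 300 (Q / 2)]⟩
  obtain ⟨b, b1, b2⟩ : ∃ b : ℝ, a ≤ b ∧ (10 * (a - 2) ^ 2) ^ 2 ≤ b - 2 :=
    ⟨a + (10 * (a - 2) ^ 2) ^ 2, by linarith [sq_nonneg (10 * (a - 2) ^ 2)], by linarith⟩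
  have hab : a ^ 2 ≤ b ^ 2 := by nlinarith
  have main := image_le_of_liminf_slope_right_le_deriv_boundary (f := fun x => GG (-x))
    (a := -b ^ 2) (b := -a ^ 2) (B := fun _ => GG (b ^ 2)) (B' := fun _ => 0)
    (fun x hx => (ContinuousAt.comp (f := fun x : ℝ => -x)
      (continuousAt_GG (by nlinarith [hx.2])) (by fun_prop)).continuousWithinAt)
    (by simp) continuousOn_const (fun x _ => hasDerivWithinAt_const _ _ _) (fun x hx r hr => by
      have x0 : 0 ≤ -x := by nlinarith [hx.2]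
      have sq1 : √(-x) ^ 2 = -x := Real.sq_sqrt x0
      have x1 : a < √(-x) := Real.lt_sqrt_of_sq_lt (by linarith [hx.2])
      obtain ⟨v, ω, hv, hω, hd⟩ := hc (2 * √(-x)) (by linarith) (by linarith)
      rw [(nhdsGT_basis x).frequently_iff]
      intro y hy
      obtain ⟨s, s1, s2, s3⟩ := left_of_diff (by linarith) hv hω hd (half_pos hr) (sub_pos.2 hy)
      rw [show (2 * √(-x)) ^ 2 / 4 = -x by linear_combination sq1] at s3
      refine ⟨x + s, ⟨by linarith, by linarith⟩, ?_⟩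
      rw [slope_def_field, add_sub_cancel_left, div_lt_iff₀ s1, neg_add, ← sub_eq_add_neg]
      nlinarith) (x := -a ^ 2) ⟨by linarith, le_rfl⟩
  simp only [neg_neg] at main
  have A1 := (adm_pv (W := a - 2) (V := a ^ 2) (by linarith) (by constructor <;> nlinarith)).1
  have A2 := (adm_pv (W := b - 2) (V := b ^ 2) (by linarith) (by constructor <;> nlinarith)).1
  have h1 := A1.dm_half A2 b2
  have h2 := A1.dm_pos
  unfold GG at main
  linarith

end Pool.Agent.MP_47b204_mp.H4D
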