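import Pool.Agent.MP_47b204_mp.H45.Kink

set_option autoImplicit false

namespace Pool.Agent.MP_47b204_mp.H4D

open Filter Topology Set Pool.Agent.MP_47b204_mp.H45

/-- a path of states that crosses the trapping region in the expanding direction -/
structure PF (W : ℝ) (γ : ℝ → St) (J : Set ℝ) (c C : ℝ) : Prop where
  hW : 100 ≤ W
  hc : 0 < c
  ex : ∀ ι, ∃ E ∈ J, Cod W (γ E) ι
  cone : ∀ E ∈ J, ∀ E' ∈ J, ∃ (δ : ℝ) (z : ℝ × ℝ), ‖z‖ ≤ 1 ∧ γ E - γ E' = δ • (z.1, z.2, 1) ∧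
    c * |E - E'| ≤ |δ| ∧ |δ| ≤ C * |E - E'|

/-- the coded points of a path -/
def CS (W : ℝ) (γ : ℝ → St) (J : Set ℝ) : Set ℝ := {E | E ∈ J ∧ ∃ ι, Cod W (γ E) ι}

variable {W c C c' C' : ℝ} {γ γ' : ℝ → St} {J J' : Set ℝ}

lemma PF.upper (h : PF W γ J c C) {E E' : ℝ} (hE : E ∈ J) (hE' : E' ∈ J) {ι : ℕ → Fin 3} {n : ℕ}
    (hs : ∀ j ≤ n, Rg W (orb (γ E) ι j)) (ht : ∀ j ≤ n, Rg W (orb (γ E') ι j)) :
    W ^ n * (c * |E - E'|) ≤ 2 := by
  obtain ⟨δ, z, z1, z2, z3, -⟩ := h.cone E hE E' hE'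
  obtain ⟨-, h2, -, h4⟩ := pair_props h.hW hs ht z1 z2 n le_rfl
  have h5 : (orb (γ E) ι n).2.2 - (orb (γ E') ι n).2.2 = δ * PG (γ E) (γ E') ι z n := by
    simpa using congrArg (fun x : St => x.2.2) h4
  have h6 : |δ| * |PG (γ E) (γ E') ι z n| ≤ 2 := by
    rw [← abs_mul, ← h5]
    exact (abs_sub _ _).trans (by linarith [(hs n le_rfl).2.1, (ht n le_rfl).2.1])
  have h7 : W ^ n * (c * |E - E'|) ≤ |PG (γ E) (γ E') ι z n| * |δ| :=
    mul_le_mul h2 z3 (mul_nonneg h.hc.le (abs_nonneg _)) (abs_nonneg _)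
  linarith

lemma PF.unique (h : PF W γ J c C) {E E' : ℝ} (hE : E ∈ J) (hE' : E' ∈ J) {ι : ℕ → Fin 3}
    (hs : Cod W (γ E) ι) (ht : Cod W (γ E') ι) : E = E' := by
  by_contra hne
  have hpos : 0 < c * |E - E'| := mul_pos h.hc (abs_pos.2 (sub_ne_zero.2 hne))
  obtain ⟨n, hn⟩ := pow_unbounded_of_one_lt (2 / (c * |E - E'|))
    (show (1 : ℝ) < W by linarith [h.hW])
  have := h.upper hE hE' (n := n) (fun j _ => hs j) (fun j _ => ht j)
  rw [div_lt_iff₀ hpos] at hn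
  linarith

lemma PF.exists_range (h : PF W γ J c C) : ∃ e : (ℕ → Fin 3) → ℝ, (∀ ι, e ι ∈ J) ∧
    (∀ ι, Cod W (γ (e ι)) ι) ∧ range e = CS W γ J := by
  choose e h1 h2 using h.ex
  refine ⟨e, h1, h2, ?_⟩
  ext E
  constructor
  · rintro ⟨ι, rfl⟩
    exact ⟨h1 ι, ι, h2 ι⟩
  · rintro ⟨hE, ι, hι⟩
    exact ⟨ι, h.unique (h1 ι) hE (h2 ι) hι⟩

/-- comparison of the dimensions of two paths with close invariants -/
lemma compare (hW : 100 ≤ W) : ∃ K : ℝ, 0 ≤ K ∧ ∀ (γ γ' : ℝ → St) (J J' : Set ℝ)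
    (c C c' C' ε r : ℝ), PF W γ J c C → PF W γ' J' c' C' → 0 ≤ ε → 0 < r → K * ε ≤ 1 - r →
    (∀ E ∈ CS W γ J, ∀ E' ∈ CS W γ' J', |fv (γ E) - fv (γ' E')| ≤ ε) →
    r * dm (CS W γ' J') ≤ dm (CS W γ J) := by
  obtain ⟨K, hK0, hK⟩ := compare_PG hW
  refine ⟨K, hK0, fun γ γ' J J' c C c' C' ε r h h' hε0 hr0 hKε hv => ?_⟩
  obtain ⟨e, e1, e2, e3⟩ := h.exists_range
  obtain ⟨e', e1', e2', e3'⟩ := h'.exists_range
  have hr1 : 0 ≤ 1 - r := (mul_nonneg hK0 hε0).trans hKε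
  have vA : ∀ ι, |fv (γ (e ι)) - fv (γ' (e' ι))| ≤ ε := fun ι =>
    hv _ ⟨e1 ι, ι, e2 ι⟩ _ ⟨e1' ι, ι, e2' ι⟩
  have c0 := h.hc
  have c0' := h'.hc
  rw [← e3, ← e3']
  refine dm_range_le e e' (5 * Real.exp (4 * K) * |C| / c' * (2 / c) ^ (1 - r)) r hr0 ?_
  intro ι ι'
  by_cases hne : ι = ι'
  · rw [hne, sub_self, abs_zero]; positivity
  obtain ⟨n, hn1, hn2⟩ := first_diff hne
  obtain ⟨δ, z, z1, z2, z3, z4⟩ := h.cone _ (e1 ι) _ (e1 ι')
  obtain ⟨δ', z', z1', z2', z3', -⟩ := h'.cone _ (e1' ι) _ (e1' ι')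
  have a1 := (pair_est hW (e2 ι) (e2 ι') hn1 z1 z2).2 hn2
  have a2 := (pair_est hW (e2' ι) (e2' ι') hn1 z1' z2').1
  have o1 : ∀ (t : St), ∀ j ≤ n, orb t ι j = orb t ι' j :=
    fun t j hj => orb_congr t fun k hk => hn1 k (by omega)
  have a3 := hK (γ (e ι)) (γ (e ι')) (γ' (e' ι)) (γ' (e' ι')) ι z z' n ε hε0
    (fun j _ => e2 ι j) (fun j hj => by rw [o1 _ j hj]; exact e2 ι' j)
    (fun j _ => e2' ι j) (fun j hj => by rw [o1 _ j hj]; exact e2' ι' j) z1 z1'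
    (fun j _ => orb_close hW (e2 ι) (e2' ι) (vA _) j)
    (fun j hj => by rw [o1 _ j hj, o1 _ j hj]; exact orb_close hW (e2 ι') (e2' ι') (vA _) j)
  have a4 := h.upper (e1 ι) (e1 ι') (n := n) (fun j _ => e2 ι j)
    (fun j hj => by rw [o1 _ j hj]; exact e2 ι' j)
  generalize hx : |e ι - e ι'| = x at *
  generalize hy : |e' ι - e' ι'| = y at *
  have x0 : 0 ≤ x := hx ▸ abs_nonneg _
  have y0 : 0 ≤ y := hy ▸ abs_nonneg _
  have gA0 := abs_nonneg (PG (γ (e ι)) (γ (e ι')) ι z n)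
  have gB0 := abs_nonneg (PG (γ' (e' ι)) (γ' (e' ι')) ι z' n)
  generalize |PG (γ (e ι)) (γ (e ι')) ι z n| = gA at *
  generalize |PG (γ' (e' ι)) (γ' (e' ι')) ι z' n| = gB at *
  have z5 : |δ| ≤ |C| * x := z4.trans (mul_le_mul_of_nonneg_right (le_abs_self C) x0)
  have xpos : 0 < x := by
    rcases x0.lt_or_eq with h1 | h1
    · exact h1
    · rw [← h1, mul_zero] at z5
      have : |δ| * gA ≤ 0 := mul_nonpos_of_nonpos_of_nonneg z5 gA0
      linarith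
  obtain ⟨A, hA⟩ : ∃ A, A = Real.exp (K * (4 + ε * n)) := ⟨_, rfl⟩
  rw [← hA] at a3
  have A0 : 0 < A := hA ▸ Real.exp_pos _
  have b1 : 2 / 5 ≤ |C| * x * (A * gB) := a1.trans (mul_le_mul z5 a3 gA0 (by positivity))
  have b2 : c' * y ≤ 5 * A * |C| * x := by
    have h4 := mul_le_mul_of_nonneg_left b1 (mul_nonneg c0'.le y0)
    have h5 : c' * y * gB ≤ 2 := (mul_le_mul_of_nonneg_right z3' gB0).trans a2
    have h6 : (c' * y * gB) * (A * |C| * x) ≤ 2 * (A * |C| * x) :=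
      mul_le_mul_of_nonneg_right h5 (by positivity)
    linarith
  have b3 : Real.exp n ≤ 2 / c / x := by
    have h5 : Real.exp n ≤ W ^ n := by
      rw [← mul_one (n : ℝ), Real.exp_nat_mul]
      exact pow_le_pow_left₀ (Real.exp_pos _).le (by linarith [Real.exp_one_lt_d9]) n
    rw [div_div, le_div_iff₀ (by positivity)]
    exact (mul_le_mul_of_nonneg_right h5 (by positivity)).trans a4
  have b4 : A ≤ Real.exp (4 * K) * (2 / c / x) ^ (1 - r) := by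
    have h5 : A ≤ Real.exp (4 * K) * Real.exp (n * (1 - r)) := by
      rw [← Real.exp_add, hA]
      apply Real.exp_le_exp.2
      have : (0 : ℝ) ≤ n := Nat.cast_nonneg n
      nlinarith
    rw [Real.exp_mul (n : ℝ) (1 - r)] at h5
    exact h5.trans (mul_le_mul_of_nonneg_left
      (Real.rpow_le_rpow (Real.exp_pos _).le b3 hr1) (Real.exp_pos _).le)
  have b5 : (2 / c / x) ^ (1 - r) * x = (2 / c) ^ (1 - r) * x ^ r := by
    rw [Real.div_rpow (by positivity) x0, Real.rpow_sub xpos, Real.rpow_one]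
    field_simp
  calc y = c' * y / c' := by field_simp
    _ ≤ 5 * (Real.exp (4 * K) * (2 / c / x) ^ (1 - r)) * |C| * x / c' := by
      refine div_le_div_of_nonneg_right (b2.trans ?_) c0'.le
      gcongr
    _ = 5 * Real.exp (4 * K) * |C| / c' * ((2 / c / x) ^ (1 - r) * x) := by ring
    _ = _ := by rw [b5]; ring

/-- the part of a path inside a cylinder -/
lemma PF.shift (h : PF W γ J c C) (κ : ℕ → Fin 3) (m : ℕ) :
    PF W (fun E => orb (γ E) κ m) {E | E ∈ J ∧ ∀ j ≤ m, Rg W (orb (γ E) κ j)} c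
      (|C| * (10 * W ^ 2) ^ m) := by
  have hW := h.hW
  refine ⟨hW, h.hc, fun ι => ?_, ?_⟩
  · obtain ⟨E, hE, hc⟩ := h.ex (cat m κ ι)
    have e : ∀ j ≤ m, orb (γ E) κ j = orb (γ E) (cat m κ ι) j := fun j hj =>
      orb_congr _ fun k hk => by simp [cat, show k < m by omega]
    refine ⟨E, ⟨hE, fun j hj => by rw [e j hj]; exact hc j⟩, ?_⟩
    have := hc.shift m
    rwa [cat_add, ← e m le_rfl] at this
  · rintro E ⟨hE, h1⟩ E' ⟨hE', h2⟩
    obtain ⟨δ, z, z1, z2, z3, z4⟩ := h.cone E hE E' hE'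
    obtain ⟨g1, g2, g3, g4⟩ := pair_props hW h1 h2 z1 z2 m le_rfl
    refine ⟨_, _, g1, g4, ?_, ?_⟩
    · rw [abs_mul]
      exact z3.trans (le_mul_of_one_le_right (abs_nonneg _)
        ((one_le_pow₀ (by linarith)).trans g2))
    · rw [abs_mul, mul_right_comm]
      exact mul_le_mul (z4.trans (mul_le_mul_of_nonneg_right (le_abs_self C) (abs_nonneg _))) g3
        (abs_nonneg _) (by positivity)

lemma cs_shift (κ : ℕ → Fin 3) (m : ℕ) :
    CS W (fun E => orb (γ E) κ m) {E | E ∈ J ∧ ∀ j ≤ m, Rg W (orb (γ E) κ j)} ⊆ CS W γ J := by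
  rintro E ⟨⟨hE, h1⟩, ι, h2⟩
  have e : ∀ j ≤ m, orb (γ E) κ j = orb (γ E) (cat m κ ι) j := fun j hj =>
    orb_congr _ fun k hk => by simp [cat, show k < m by omega]
  refine ⟨hE, cat m κ ι, fun j => ?_⟩
  rcases le_total j m with hj | hj
  · rw [← e j hj]; exact h1 j hj
  · obtain ⟨i, rfl⟩ := Nat.exists_eq_add_of_le hj
    rw [orb_add, cat_add, ← e m le_rfl]
    exact h2 i

/-- the off-diagonal parameter with a given invariant -/
noncomputable def pv (V : ℝ) : ℝ := √V + √(V + 1)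

/-- the dimension as a function of the invariant -/
noncomputable def GG (V : ℝ) : ℝ := dm (KK (pv V) 0)

lemma adm_pv {V : ℝ} (hW : 100 ≤ W) (hV : VOk W V) :
    Adm W (pv V) 0 ∧ ∀ b, fv (init (pv V) 0 b) = V := by
  have v0 : 0 ≤ V := le_trans (sq_nonneg _) hV.1
  have sq1 : √V ^ 2 = V := Real.sq_sqrt v0
  have sq2 : √(V + 1) ^ 2 = V + 1 := Real.sq_sqrt (by linarith)
  have D1 : W + 1 ≤ √V := le_of_sq_le_sq_aux (by rw [sq1]; exact hV.1) (Real.sqrt_nonneg V)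
  have p2 : 2 ≤ pv V := by unfold pv; linarith [Real.sqrt_nonneg (V + 1)]
  have p0 : pv V ≠ 0 := by linarith
  have inv' : 1 / pv V = √(V + 1) - √V := by
    rw [div_eq_iff p0, pv]; linear_combination sq1 - sq2
  have e : ∀ b, fv (init (pv V) 0 b) = V := fun b => by
    rw [fv_init p0, DD, inv', pv]
    linear_combination sq1
  exact ⟨⟨hW, p2, by simp, fun b _ => by rw [e]; exact hV⟩, e⟩

lemma pf_std {p : ℝ} (h : Adm W p 0) : PF W (init p 0) univ 1 1 ∧ CS W (init p 0) univ = KK p 0 := by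
  refine ⟨⟨h.1, one_pos, fun ι => ⟨_, trivial, h.cod_ee ι⟩, fun E _ E' _ =>
    ⟨E - E', _, norm_z0 h.2.1, init_sub p 0 E E', by simp, by simp⟩⟩, ?_⟩
  ext b
  constructor
  · rintro ⟨-, ι, hι⟩
    exact hι.bd h.1
  · intro hb
    exact ⟨trivial, (h.esc_or_cod b).resolve_left fun he => he.not_bd hb⟩

/-- a path with constant invariant has the standard dimension -/
lemma PF.dm_le_GG (h : PF W γ J c C) {V : ℝ} (hV : VOk W V) (hv : ∀ E, fv (γ E) = V) :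
    dm (CS W γ J) ≤ GG V := by
  obtain ⟨K, -, hK⟩ := compare h.hW
  obtain ⟨a1, a2⟩ := adm_pv h.hW hV
  have := hK _ _ _ _ _ _ _ _ 0 1 (pf_std a1).1 h le_rfl one_pos (by simp)
    fun E _ E' _ => by simp [a2, hv]
  rwa [(pf_std a1).2, one_mul] at this

/-- the local lower bound -/
lemma PF.GG_le (h : PF W γ J c C) {Λ E0 : ℝ} (hΛ : ∀ E E', |fv (γ E) - fv (γ E')| ≤ Λ * |E - E'|)
    (h0 : E0 ∈ CS W γ J) (hV : VOk W (fv (γ E0))) : GG (fv (γ E0)) ≤ dm (CS W γ J) := by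
  have hW := h.hW
  have c0 := h.hc
  obtain ⟨K, hK0, hK⟩ := compare hW
  obtain ⟨a1, a2⟩ := adm_pv hW hV
  obtain ⟨h1, κ, hκ⟩ := h0
  have key : ∀ r : ℝ, 0 < r → r < 1 → r * GG (fv (γ E0)) ≤ dm (CS W γ J) := by
    intro r hr0 hr1
    obtain ⟨m, hm⟩ := pow_unbounded_of_one_lt (K * (|Λ| * 2 / c) / (1 - r))
      (show (1 : ℝ) < W by linarith)
    have pW : 0 < W ^ m := by positivity
    have := hK _ _ _ _ _ _ _ _ (|Λ| * 2 / c / W ^ m) r (h.shift κ m) (pf_std a1).1 (by positivity)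
      hr0 (by
        rw [div_lt_iff₀ (by linarith)] at hm
        rw [← mul_div_assoc, div_le_iff₀ pW]
        linarith) (by
        rintro E ⟨⟨g1, g2⟩, -⟩ E' -
        have g3 := h.upper g1 h1 g2 fun j _ => hκ j
        rw [fv_orb, a2, le_div_iff₀ pW, le_div_iff₀ c0]
        have g4 := (hΛ E E0).trans (mul_le_mul_of_nonneg_right (le_abs_self Λ) (abs_nonneg _))
        have g5 := mul_le_mul_of_nonneg_left g3 (abs_nonneg Λ)
        have g6 := mul_le_mul_of_nonneg_right g4 (mul_pos pW c0).le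
        linarith)
    rw [(pf_std a1).2] at this
    exact this.trans (dm_mono (cs_shift κ m))
  by_contra hc
  push Not at hc
  have d0 := dm_nonneg (CS W γ J)
  have d1 : 0 < GG (fv (γ E0)) := by linarith
  have := key ((dm (CS W γ J) / GG (fv (γ E0)) + 1) / 2) (by positivity)
    (by have := (div_lt_one d1).2 hc; linarith)
  have e : (dm (CS W γ J) / GG (fv (γ E0)) + 1) / 2 * GG (fv (γ E0)) =
      (dm (CS W γ J) + GG (fv (γ E0))) / 2 := by field_simp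
  linarith

lemma dm_le_one (s : Set ℝ) : dm s ≤ 1 := by
  have := dm_mono (subset_univ s)
  rwa [show dm univ = 1 by rw [dm, Real.dimH_univ, ENNReal.toReal_one]] at this

lemma vok_self {V : ℝ} (hV : 102 ^ 2 ≤ V) : 100 ≤ √V - 2 ∧ ∀ V', |V' - V| ≤ 1 → VOk (√V - 2) V' := by
  have sq1 : √V ^ 2 = V := Real.sq_sqrt (by linarith)
  have h1 : 102 ≤ √V := le_of_sq_le_sq_aux (by rwa [sq1]) (Real.sqrt_nonneg V)
  refine ⟨by linarith, fun V' h => ?_⟩
  have := abs_le.1 h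
  constructor <;> nlinarith

/-- the dimension depends continuously on the invariant -/
lemma continuousAt_GG {V : ℝ} (hV : 102 ^ 2 ≤ V) : ContinuousAt GG V := by
  obtain ⟨hW, hv⟩ := vok_self hV
  obtain ⟨K, hK0, hK⟩ := compare hW
  have key : ∀ x y, |x - V| ≤ 1 → |y - V| ≤ 1 → K * |x - y| < 1 → GG y - GG x ≤ K * |x - y| := by
    intro x y hx hy h
    obtain ⟨a1, a2⟩ := adm_pv hW (hv x hx)
    obtain ⟨b1, b2⟩ := adm_pv hW (hv y hy)
    have := hK _ _ _ _ _ _ _ _ |x - y| (1 - K * |x - y|) (pf_std a1).1 (pf_std b1).1 (abs_nonneg _)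
      (by linarith) (by linarith) fun E _ E' _ => by rw [a2, b2]
    rw [(pf_std a1).2, (pf_std b1).2] at this
    have h1 := mul_le_mul_of_nonneg_left (dm_le_one (KK (pv y) 0)) (mul_nonneg hK0 (abs_nonneg (x - y)))
    unfold GG
    linarith
  rw [Metric.continuousAt_iff]
  intro ε hε
  refine ⟨min 1 (min 1 ε / (K + 1)), by positivity, fun x hx => ?_⟩
  rw [Real.dist_eq] at hx ⊢
  have h1 : |x - V| ≤ 1 := hx.le.trans (min_le_left _ _)
  have h2 : |x - V| * (K + 1) < min 1 ε :=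
    (lt_div_iff₀ (by positivity)).1 (hx.trans_le (min_le_right _ _))
  have h3 := min_le_left 1 ε
  have h4 := min_le_right 1 ε
  have h5 := abs_nonneg (x - V)
  have k1 := key x V h1 (by simp) (by linarith)
  have k2 := key V x (by simp) h1 (by rw [abs_sub_comm]; linarith)
  rw [abs_sub_comm V x] at k2
  rw [abs_lt]
  constructor <;> linarith

end Pool.Agent.MP_47b204_mp.H4D
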