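import Pool.Agent.MP_47b204_mp.H45.Schnol

set_option autoImplicit false

namespace Pool.Agent.MP_47b204_mp.H4D

open Filter Topology
open Finset hiding offDiag diag
open Matrix hiding diag
open scoped Matrix.Norms.Operator
open Pool.Agent.MP_47b204_mp.H45 hiding offDiag_ne norm_offDiag det_MW MW_rec trace_ww norm_trace_ww
  Ps_succ norm_Ps_le le_norm_Ps propagate square_est bb_of_esc norm_MW_ww exists_solution cutoff_est
  not_bb_of_bd

/-- off-diagonal parameters near one -/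
def Near (p : ℝ) : Prop := 1 / 2 ≤ p ∧ p ≤ 2

variable {p q E : ℝ}

lemma offDiag_ne (hp : Near p) (x : Bool) : (offDiag p x : ℂ) ≠ 0 := by
  cases x
  · simp only [offDiag]; exact_mod_cast (by linarith [hp.1] : p ≠ 0)
  · simp [offDiag]

lemma norm_offDiag (hp : Near p) (x : Bool) :
    1 / 2 ≤ ‖(offDiag p x : ℂ)‖ ∧ ‖(offDiag p x : ℂ)‖ ≤ 2 := by
  obtain ⟨h1, h2⟩ := hp
  cases x <;> simp only [offDiag, Complex.norm_real, Real.norm_eq_abs]
  · rw [abs_of_nonneg (by linarith)]; constructor <;> linarith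
  · rw [abs_one]; constructor <;> linarith

lemma det_MW (hp : Near p) (w : List Bool) : (MW p q E w).det = 1 := by
  induction w with
  | nil => simp [MW]
  | cons x w ih =>
    rw [MW, det_mul, ih, one_mul, tm, det_fin_two_of]
    have := offDiag_ne hp x
    field_simp
    ring

lemma MW_rec (hp : Near p) (n : ℕ) : MW p q E (ww (n + 3))
    = (MW p q E (ww (n + 2))).trace • MW p q E (ww (n + 1))
      - (MW p q E (ww n)).trace • (1 : M2) + MW p q E (ww n) := by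
  rw [ww_add_two (n + 1), MW_append, ww_add_two n, MW_append]
  exact mat_id _ (det_MW hp _)

lemma trace_ww (hp : Near p) (b : ℝ) (n : ℕ) :
    (MW p q (2 * p * b + q) (ww n)).trace = 2 * (XX (init p q b) n : ℂ) := by
  have hp0 : (p : ℂ) ≠ 0 := offDiag_ne hp false
  induction n using Nat.strong_induction_on with
  | _ n ih =>
    match n with
    | 0 =>
      simp only [ww, MW, tm, one_mul, trace_fin_two_of, XX, init, diag, offDiag,
        Function.iterate_zero, id]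
      push_cast; field_simp; ring
    | 1 =>
      have : ww 1 = [true] := rfl
      simp only [this, MW, tm, one_mul, trace_fin_two_of, XX, init, diag, offDiag, tr,
        Function.iterate_one]
      push_cast; field_simp; ring
    | 2 =>
      have : ww 2 = [true, false] := rfl
      simp only [this, MW, tm, one_mul, mul_fin_two, trace_fin_two_of, XX, init, diag, offDiag, tr,
        Function.iterate_succ, Function.iterate_zero, Function.comp, id]
      push_cast; field_simp; ring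
    | n + 3 =>
      rw [MW_rec hp, trace_add, trace_sub, trace_smul, trace_smul, trace_one, ih n (by omega),
        ih (n + 1) (by omega), ih (n + 2) (by omega), XX_rec]
      simp only [smul_eq_mul, Fintype.card_fin]
      push_cast; ring

lemma norm_trace_ww (hp : Near p) (b : ℝ) (n : ℕ) :
    ‖(MW p q (2 * p * b + q) (ww n)).trace‖ = 2 * |XX (init p q b) n| := by
  rw [trace_ww hp, norm_mul, Complex.norm_real, Real.norm_eq_abs]
  simp

lemma Ps_succ (hp : Near p) (ω : ℤ → Bool) (φ : ℤ → ℂ) (n : ℤ) :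
    Ps p ω φ (n + 1) = tm p q E (ω n) *ᵥ Ps p ω φ n + ![HH p q ω φ n - E * φ n, 0] := by
  have := offDiag_ne hp (ω n)
  ext i
  fin_cases i <;> simp [Ps, tm, HH] <;> field_simp
  ring

lemma norm_Ps_le (hp : Near p) (ω : ℤ → Bool) (φ : ℤ → ℂ) (n : ℤ) :
    ‖Ps p ω φ n‖ ≤ 2 * (‖φ n‖ + ‖φ (n - 1)‖) := by
  refine (norm_pair _ _).trans ?_
  rw [norm_mul]
  have h1 := mul_le_mul_of_nonneg_right (norm_offDiag hp (ω n)).2 (norm_nonneg (φ n))
  have h2 := norm_nonneg (φ (n - 1))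
  linarith

lemma le_norm_Ps (hp : Near p) (ω : ℤ → Bool) (φ : ℤ → ℂ) (n : ℤ) :
    ‖φ n‖ ≤ 2 * ‖Ps p ω φ n‖ ∧ ‖φ (n - 1)‖ ≤ ‖Ps p ω φ n‖ := by
  refine ⟨?_, norm_le_pi_norm (Ps p ω φ n) 1⟩
  have h0 : ‖(offDiag p (ω n) : ℂ) * φ n‖ ≤ _ := norm_le_pi_norm (Ps p ω φ n) 0
  rw [norm_mul] at h0
  have h1 := mul_le_mul_of_nonneg_right (norm_offDiag hp (ω n)).1 (norm_nonneg (φ n))
  linarith

lemma propagate (hp : Near p) (ω : ℤ → Bool) (φ : ℤ → ℂ) {S : ℝ} (w : List Bool) (m : ℤ)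
    (hw : OccZ ω m w) (hS : ∀ i : ℕ, i < w.length → ‖HH p q ω φ (m + i) - E * φ (m + i)‖ ≤ S) :
    ‖Ps p ω φ (m + w.length) - MW p q E w *ᵥ Ps p ω φ m‖ ≤ w.length * BT p q E ^ w.length * S := by
  induction w generalizing m with
  | nil => simp [MW]
  | cons x w ih =>
    obtain ⟨h1, h2⟩ := hw
    have h3 := ih (m + 1) h2 fun i hi => by
      have := hS (i + 1) (by simpa using hi)
      rwa [Nat.cast_add, Nat.cast_one, add_comm (i : ℤ) 1, ← add_assoc] at this
    have h4 := hS 0 (by simp)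
    rw [Nat.cast_zero, add_zero] at h4
    have hS0 : 0 ≤ S := (norm_nonneg _).trans h4
    have e : Ps p ω φ (m + (x :: w).length) - MW p q E (x :: w) *ᵥ Ps p ω φ m
        = (Ps p ω φ (m + 1 + w.length) - MW p q E w *ᵥ Ps p ω φ (m + 1))
          + MW p q E w *ᵥ ![HH p q ω φ m - E * φ m, 0] := by
      rw [Ps_succ (q := q) (E := E) hp ω φ m, h1, MW, ← mulVec_mulVec, mulVec_add, List.length_cons,
        Nat.cast_add, Nat.cast_one, add_comm (w.length : ℤ) 1, ← add_assoc]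
      abel
    rw [e]
    refine (norm_add_le _ _).trans ?_
    have h5 := linfty_opNorm_mulVec (MW p q E w) ![HH p q ω φ m - E * φ m, 0]
    have h6 := norm_pair (HH p q ω φ m - E * φ m) 0
    rw [norm_zero, add_zero] at h6
    have hB := one_le_BT (p := p) (q := q) (E := E)
    have h7 : ‖MW p q E w‖ * ‖(![HH p q ω φ m - E * φ m, 0] : Fin 2 → ℂ)‖
        ≤ BT p q E ^ w.length * S :=
      mul_le_mul (norm_MW_le w) (h6.trans h4) (norm_nonneg _) (by positivity)
    have h8 : BT p q E ^ w.length ≤ BT p q E ^ (w.length + 1) := pow_le_pow_right₀ hB (by omega)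
    have h9 : ((w.length : ℝ) + 1) * (BT p q E ^ w.length * S)
        ≤ ((w.length : ℝ) + 1) * (BT p q E ^ (w.length + 1) * S) := by gcongr
    rw [List.length_cons, Nat.cast_add, Nat.cast_one]
    linarith

/-- the estimate at the centre of a square -/
lemma square_est (hp : Near p) (ω : ℤ → Bool) (φ : ℤ → ℂ) {S Θ : ℝ} {R : ℕ} (w : List Bool) (c : ℤ)
    (hw : OccZ ω (c - w.length) (w ++ w)) (hR : w.length ≤ R) (hS0 : 0 ≤ S)
    (hS : ∀ j : ℤ, c - R ≤ j → j < c + R → ‖HH p q ω φ j - E * φ j‖ ≤ S) (hΘ : 1 ≤ Θ)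
    (ht : Θ ≤ ‖(MW p q E w).trace‖) :
    ‖Ps p ω φ c‖ ≤ Θ⁻¹ * (‖Ps p ω φ (c + w.length)‖ + ‖Ps p ω φ (c - w.length)‖)
      + (2 + BT p q E ^ R) * (R * BT p q E ^ R) * S := by
  obtain ⟨h1, h2⟩ := occZ_append.1 hw
  rw [sub_add_cancel] at h2
  have g1 := propagate (q := q) (E := E) hp ω φ w _ h1 fun i hi => hS _ (by omega) (by omega)
  have g2 := propagate (q := q) (E := E) hp ω φ w _ h2 fun i hi => hS _ (by omega) (by omega)
  rw [sub_add_cancel] at g1
  have hB := one_le_BT (p := p) (q := q) (E := E)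
  have hBR : BT p q E ^ w.length ≤ BT p q E ^ R := pow_le_pow_right₀ hB hR
  have hR' : (w.length : ℝ) ≤ R := by exact_mod_cast hR
  have g3 : (w.length : ℝ) * BT p q E ^ w.length * S ≤ R * BT p q E ^ R * S := by gcongr
  set M := MW p q E w
  set t := M.trace
  set u := Ps p ω φ c
  set v := Ps p ω φ (c - w.length)
  set y := Ps p ω φ (c + w.length)
  set Z := (R : ℝ) * BT p q E ^ R * S with hZ
  have Z0 : 0 ≤ Z := by positivity
  have e : t • u = y - (y - M *ᵥ u) + v + (t • (1 : M2) - M) *ᵥ (u - M *ᵥ v) := by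
    rw [mulVec_sub, mulVec_mulVec, adj_mul (det_MW hp w), one_mulVec, sub_mulVec, smul_mulVec,
      one_mulVec]
    abel
  have n1 : ‖(t • (1 : M2) - M) *ᵥ (u - M *ᵥ v)‖ ≤ (‖t‖ + BT p q E ^ R) * Z :=
    (linfty_opNorm_mulVec _ _).trans (mul_le_mul
      ((norm_adj_le M).trans (by linarith [norm_MW_le (p := p) (q := q) (E := E) w]))
      (g1.trans g3) (norm_nonneg _) (by positivity))
  have n2 : ‖t‖ * ‖u‖ ≤ ‖y‖ + Z + ‖v‖ + (‖t‖ + BT p q E ^ R) * Z := by
    rw [← norm_smul, e]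
    refine (norm_add₃_le).trans ?_
    linarith [norm_sub_le y (y - M *ᵥ u)]
  have t1 : 1 ≤ ‖t‖ := hΘ.trans ht
  have t0 : 0 < ‖t‖ := by linarith
  have n3 : ‖y‖ + ‖v‖ ≤ ‖t‖ * (Θ⁻¹ * (‖y‖ + ‖v‖)) := by
    have : 1 ≤ ‖t‖ * Θ⁻¹ := by rw [← div_eq_mul_inv, le_div_iff₀ (by linarith)]; linarith
    have h := mul_le_mul_of_nonneg_right this (add_nonneg (norm_nonneg y) (norm_nonneg v))
    linarith
  have n4 : (1 + BT p q E ^ R) * Z ≤ ‖t‖ * ((1 + BT p q E ^ R) * Z) :=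
    le_mul_of_one_le_left (by positivity) t1
  apply le_of_mul_le_mul_left _ t0
  rw [mul_assoc (2 + BT p q E ^ R), ← hZ]
  linarith

/-- escaping traces make the operator bounded below -/
lemma bb_of_esc (hp : Near p) {v ω : ℤ → Bool} (hv : ∀ k : ℕ, v k = fibSeq k) (hω : ω ∈ hull v)
    {b : ℝ} (he : Esc (init p q b)) : BB p q ω (2 * p * b + q) := by
  obtain ⟨n, hn⟩ := eventually_atTop.1 (he.eventually_ge_atTop 288)
  set E := 2 * p * b + q
  set R := (fibWord (n + 2)).length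
  set Λ : Finset ℤ := {((fibWord n).length : ℤ), ((fibWord (n + 1)).length : ℤ),
    ((fibWord (n + 2)).length : ℤ), -((fibWord n).length : ℤ), -((fibWord (n + 1)).length : ℤ),
    -((fibWord (n + 2)).length : ℤ)} with hΛ
  set D : Finset ℤ := (Λ ×ˢ ({-1, 0, 1} : Finset ℤ)).image fun x => x.1 + x.2 with hD
  have cD : (D.card : ℝ) ≤ 18 := by
    have h1 : D.card ≤ Λ.card * ({-1, 0, 1} : Finset ℤ).card := by
      rw [← card_product]; exact card_image_le
    have h2 : Λ.card ≤ 6 := card_le_six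
    have h3 : ({-1, 0, 1} : Finset ℤ).card = 3 := by decide
    rw [h3] at h1
    exact_mod_cast (by omega : D.card ≤ 18)
  set D' : Finset ℤ := Finset.Icc (-(R : ℤ)) (R + 1)
  set β := (2 + BT p q E ^ R) * (R * BT p q E ^ R)
  have hB := one_le_BT (p := p) (q := q) (E := E)
  have β0 : 0 ≤ β := by positivity
  refine ⟨2 * (2 * β * D'.card), by positivity, fun φ f hf => ?_⟩
  have key := norm_le_dom φ φ f (α := 1 / 36) (β := 2 * β) (by norm_num) (by positivity) D D' (fun m => by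
    obtain ⟨c, hc, k, hk, w, hw1, hw2⟩ := hull_squares hv hω n m
    have hl : w.length = (fibWord k).length := hw1.perm.length_eq
    have hR : w.length ≤ R := by rw [hl]; exact (fibWord_prefix (by omega)).length_le
    have ht : 576 ≤ ‖(MW p q E w).trace‖ := by
      rw [trace_MW_rot hw1]
      have := norm_trace_ww (q := q) hp b (k + 1)
      have h2 := hn (k + 1) (by omega)
      change ‖(MW p q E (fibWord k)).trace‖ = _ at this
      linarith
    have h1 := square_est (q := q) (E := E) hp ω φ (S := ∑ d ∈ D', ‖f (m + d)‖) w c hw2 hR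
      (sum_nonneg fun _ _ => norm_nonneg _) (fun j h1 h2 => by
        rw [← hf]
        have := single_le_sum (f := fun d => ‖f (m + d)‖) (fun _ _ => norm_nonneg _)
          (show j - m ∈ D' from Finset.mem_Icc.2 ⟨by omega, by omega⟩)
        simpa using this) (by linarith) ht
    set U := ∑ d ∈ D, ‖φ (m + d)‖
    have hU : ∀ (l e : ℤ), l ∈ Λ → e ∈ ({-1, 0, 1} : Finset ℤ) → ∀ j, j = m + (l + e) → ‖φ j‖ ≤ U := by
      rintro l e hl he j rfl
      exact single_le_sum (f := fun d => ‖φ (m + d)‖) (fun _ _ => norm_nonneg _)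
        (mem_image.2 ⟨(l, e), mem_product.2 ⟨hl, he⟩, rfl⟩)
    have l1 : (w.length : ℤ) ∈ Λ := by
      rw [hl, hΛ]; rcases hk with rfl | rfl | rfl <;> simp
    have l2 : -(w.length : ℤ) ∈ Λ := by
      rw [hl, hΛ]; rcases hk with rfl | rfl | rfl <;> simp
    have u1 : ‖φ (c + w.length)‖ ≤ U :=
      hU _ (c - m) l1 (by rcases hc with rfl | rfl <;> simp) _ (by ring)
    have u2 : ‖φ (c + w.length - 1)‖ ≤ U :=
      hU _ (c - m - 1) l1 (by rcases hc with rfl | rfl <;> simp) _ (by ring)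
    have u3 : ‖φ (c - w.length)‖ ≤ U :=
      hU _ (c - m) l2 (by rcases hc with rfl | rfl <;> simp) _ (by ring)
    have u4 : ‖φ (c - w.length - 1)‖ ≤ U :=
      hU _ (c - m - 1) l2 (by rcases hc with rfl | rfl <;> simp) _ (by ring)
    have v1 := norm_Ps_le hp ω φ (c + w.length)
    have v2 := norm_Ps_le hp ω φ (c - w.length)
    have v3 : ‖φ m‖ ≤ 2 * ‖Ps p ω φ c‖ := by
      rcases hc with rfl | rfl
      · exact (le_norm_Ps hp ω φ c).1
      · have := (le_norm_Ps hp ω φ (m + 1)).2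
        rw [add_sub_cancel_right] at this
        linarith [norm_nonneg (Ps p ω φ (m + 1))]
    linarith)
  have h2 : 1 / 36 * (D.card : ℝ) * ‖φ‖ ≤ 1 / 36 * 18 * ‖φ‖ := by gcongr
  linarith

lemma norm_MW_ww (hp : Near p) {τ : ℝ} (hτ : ∀ n, ‖(MW p q E (ww n)).trace‖ ≤ τ) :
    ∃ Γ : ℝ, 1 ≤ Γ ∧ τ ≤ Γ ∧ ∀ n, ‖MW p q E (ww n)‖ ≤ Γ ^ (n + 1) := by
  have τ0 : 0 ≤ τ := (norm_nonneg _).trans (hτ 0)
  have a0 := norm_nonneg (MW p q E (ww 0))
  have a1 := norm_nonneg (MW p q E (ww 1))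
  have a2 := norm_nonneg (MW p q E (ww 2))
  set Γ := 2 * τ + 1 + ‖MW p q E (ww 0)‖ + ‖MW p q E (ww 1)‖ + ‖MW p q E (ww 2)‖ with hΓ
  have Γ1 : 1 ≤ Γ := by linarith
  refine ⟨Γ, Γ1, by linarith, fun n => ?_⟩
  induction n using Nat.strong_induction_on with
  | _ n ih =>
    match n with
    | 0 => exact le_trans (by linarith) (le_self_pow₀ Γ1 (by omega))
    | 1 => exact le_trans (by linarith) (le_self_pow₀ Γ1 (by omega))
    | 2 => exact le_trans (by linarith) (le_self_pow₀ Γ1 (by omega))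
    | n + 3 =>
      rw [MW_rec hp]
      have h1 := ih n (by omega)
      have h2 := ih (n + 1) (by omega)
      have h3 : Γ ^ (n + 1) ≤ Γ ^ (n + 3) := pow_le_pow_right₀ Γ1 (by omega)
      have h4 : Γ ^ (n + 1 + 1) ≤ Γ ^ (n + 3) := pow_le_pow_right₀ Γ1 (by omega)
      have h5 : 1 ≤ Γ ^ (n + 3) := one_le_pow₀ Γ1
      refine (norm_add_le _ _).trans ?_
      have h6 := norm_sub_le ((MW p q E (ww (n + 2))).trace • MW p q E (ww (n + 1)))
        ((MW p q E (ww n)).trace • (1 : M2))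
      rw [norm_smul, norm_smul, norm_one, mul_one] at h6
      have h7 : ‖(MW p q E (ww (n + 2))).trace‖ * ‖MW p q E (ww (n + 1))‖ ≤ τ * Γ ^ (n + 3) :=
        mul_le_mul (hτ _) (h2.trans h4) (norm_nonneg _) τ0
      have h8 : τ * 1 ≤ τ * Γ ^ (n + 3) := mul_le_mul_of_nonneg_left h5 τ0
      have h9 : (2 * τ + 1) * Γ ^ (n + 3) ≤ Γ * Γ ^ (n + 3) :=
        mul_le_mul_of_nonneg_right (by linarith) (by linarith)
      rw [pow_succ' Γ (n + 3)]
      linarith [hτ n]

/-- a solution of the eigenvalue equation to the right of a given site -/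
lemma exists_solution (hp : Near p) (ω : ℤ → Bool) (m : ℤ) (v0 : Fin 2 → ℂ) :
    ∃ ψ : ℤ → ℂ, Ps p ω ψ m = v0 ∧ ∀ j, m ≤ j → HH p q ω ψ j - E * ψ j = 0 := by
  let Y : ℕ → Fin 2 → ℂ := fun n => Nat.rec v0 (fun i y => tm p q E (ω (m + i)) *ᵥ y) n
  have hY : ∀ i, Y (i + 1) = tm p q E (ω (m + i)) *ᵥ Y i := fun _ => rfl
  let ψ : ℤ → ℂ := fun j => Y (j - m + 1).toNat 1
  have h1 : ∀ i : ℕ, Ps p ω ψ (m + i) = Y i := by
    intro i
    have e1 : (m + i - m + 1).toNat = i + 1 := by omega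
    have e2 : (m + i - 1 - m + 1).toNat = i := by omega
    have := offDiag_ne hp (ω (m + i))
    ext k
    fin_cases k
    · simp only [Ps, ψ, e1, hY]
      simp [tm, mulVec, dotProduct, Fin.sum_univ_two]
      field_simp
    · simp only [Ps, ψ, e2]
      simp
  refine ⟨ψ, by have := h1 0; rw [Nat.cast_zero, add_zero] at this; exact this, fun j hj => ?_⟩
  obtain ⟨i, rfl⟩ : ∃ i : ℕ, j = m + i := ⟨(j - m).toNat, by omega⟩
  have h2 := Ps_succ (q := q) (E := E) hp ω ψ (m + i)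
  have h3 := h1 (i + 1)
  rw [Nat.cast_add, Nat.cast_one, ← add_assoc, h2, h1, hY] at h3
  have := congrFun (add_eq_left.1 h3) 0
  simpa using this

lemma cutoff_est (hp : Near p) (ω : ℤ → Bool) {C : ℝ} (hC0 : 0 ≤ C)
    (hC : ∀ φ f : L2, (∀ n, f n = HH p q ω φ n - E * φ n) → ‖φ‖ ≤ C * ‖f‖)
    (ψ : ℤ → ℂ) (c : ℤ) (j : ℕ) (hj : 1 ≤ j)
    (hψ : ∀ n, c - j ≤ n → HH p q ω ψ n - E * ψ n = 0) :
    NN ψ c j ≤ (C * 2 * (‖ψ (c - j)‖ + ‖ψ (c - j - 1)‖ + ‖ψ (c + j)‖ + ‖ψ (c + j - 1)‖)) ^ 2 := by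
  set φ : L2 := ∑ n ∈ Finset.Ico (c - j) (c + j), lp.single 2 n (ψ n) with hφ
  have hφ' : ∀ n, φ n = if c - j ≤ n ∧ n < c + j then ψ n else 0 := by
    intro n
    simp only [hφ, lp.coeFn_single, lp.coeFn_sum, Finset.sum_apply, Finset.sum_pi_single,
      Finset.mem_Ico]
  have hn : ‖φ‖ ^ 2 = NN ψ c j := by
    have := lp.norm_sum_single (E := fun _ : ℤ => ℂ) (p := 2) (by norm_num) ψ
      (Finset.Ico (c - j) (c + j))
    simpa [NN, hφ] using this
  set f : L2 := lp.single 2 (c - j - 1) ((offDiag p (ω (c - j)) : ℂ) * ψ (c - j))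
    - lp.single 2 (c - j) ((offDiag p (ω (c - j)) : ℂ) * ψ (c - j - 1))
    - lp.single 2 (c + j - 1) ((offDiag p (ω (c + j)) : ℂ) * ψ (c + j))
    + lp.single 2 (c + j) ((offDiag p (ω (c + j)) : ℂ) * ψ (c + j - 1)) with hf
  have hf' : ∀ n, f n = HH p q ω φ n - E * φ n := by
    intro n
    have h0 := hψ n
    simp only [hf, HH, hφ', lp.coeFn_sub, lp.coeFn_add, Pi.sub_apply, Pi.add_apply,
      lp.single_apply, Pi.single_apply] at h0 ⊢
    by_cases c1 : n = c - j - 1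
    · subst c1
      rw [if_pos rfl, if_neg (by omega), if_neg (by omega), if_neg (by omega), if_neg (by omega),
        if_pos (by omega), if_neg (by omega)]
      simp
    by_cases c2 : n = c - j
    · subst c2
      rw [if_neg c1, if_pos rfl, if_neg (by omega), if_neg (by omega), if_neg (by omega),
        if_pos (by omega), if_pos (by omega)]
      linear_combination -h0 le_rfl
    by_cases c3 : n = c + j - 1
    · subst c3
      rw [if_neg c1, if_neg c2, if_pos rfl, if_neg (by omega), if_pos (by omega),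
        if_neg (by omega), if_pos (by omega)]
      have := h0 (by omega)
      rw [sub_add_cancel] at this
      linear_combination -this
    by_cases c4 : n = c + j
    · subst c4
      rw [if_neg c1, if_neg c2, if_neg c3, if_pos rfl, if_pos (by omega),
        if_neg (by omega), if_neg (by omega)]
      simp
    rw [if_neg c1, if_neg c2, if_neg c3, if_neg c4]
    by_cases c5 : c - j ≤ n ∧ n < c + j
    · rw [if_pos (by omega), if_pos (by omega), if_pos c5]
      linear_combination -h0 c5.1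
    · rw [if_neg (by omega), if_neg (by omega), if_neg c5]
      simp
  have h1 := hC φ f hf'
  have k : ∀ (x : Bool) (n : ℤ) (z : ℂ), ‖(lp.single 2 n ((offDiag p x : ℂ) * z) : L2)‖ ≤ 2 * ‖z‖ := by
    intro x n z
    rw [lp.norm_single (by norm_num), norm_mul]
    exact mul_le_mul_of_nonneg_right (norm_offDiag hp x).2 (norm_nonneg _)
  have h2 : ‖f‖ ≤ 2 * (‖ψ (c - j)‖ + ‖ψ (c - j - 1)‖ + ‖ψ (c + j)‖ + ‖ψ (c + j - 1)‖) := by
    rw [hf]
    refine (norm_add_le _ _).trans ?_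
    refine (add_le_add_left (norm_sub_le _ _) _).trans ?_
    refine (add_le_add_left (add_le_add_left (norm_sub_le _ _) _) _).trans ?_
    linarith [k (ω (c - j)) (c - j - 1) (ψ (c - j)), k (ω (c - j)) (c - j) (ψ (c - j - 1)),
      k (ω (c + j)) (c + j - 1) (ψ (c + j)), k (ω (c + j)) (c + j) (ψ (c + j - 1))]
  rw [← hn, mul_assoc]
  exact pow_le_pow_left₀ (norm_nonneg _) (h1.trans (mul_le_mul_of_nonneg_left h2 hC0)) 2

/-- bounded traces prevent the operator from being bounded below -/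
lemma not_bb_of_bd (hp : Near p) {v ω : ℤ → Bool} (hv : ∀ k : ℕ, v k = fibSeq k) (hω : ω ∈ hull v)
    {b : ℝ} (hb : Bd (init p q b)) : ¬ BB p q ω (2 * p * b + q) := by
  rintro ⟨C, hC0, hC⟩
  obtain ⟨τ, hτ⟩ := hb
  set E := 2 * p * b + q
  have hτ' : ∀ n, ‖(MW p q E (ww n)).trace‖ ≤ 2 * τ := fun n => by
    rw [norm_trace_ww hp]; linarith [hτ n]
  obtain ⟨Γ, Γ1, Γ2, hΓ⟩ := norm_MW_ww hp hτ'
  set Λ := 4 * (C * 2) ^ 2 + 1 with hΛ
  have Λ1 : 1 ≤ Λ := by have := sq_nonneg (C * 2); linarith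
  have g1 : 1 < 1 + Λ⁻¹ := by have : 0 < Λ⁻¹ := by positivity
                              linarith
  obtain ⟨r, hr⟩ := pow_unbounded_of_one_lt (Γ ^ 2 + 21 * Λ) g1
  set n := 4 * r + 8 with hn
  obtain ⟨m, hm⟩ := hull_occ hv hω n
  set w := fibWord n
  set k := w.length
  have hk : 2 * (r * (n + 3)) + 1 ≤ k := by
    have this : n * n ≤ 2 * k := sq_le_length_fibWord n
    have e : n * n = 4 * (r * (n + 3)) + (20 * r + 64) := by rw [hn]; ring
    generalize r * (n + 3) = s at e ⊢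
    generalize n * n = u at e this
    omega
  set M := MW p q E w
  have hM : ‖M‖ ≤ Γ ^ (n + 2) := hΓ (n + 1)
  have ht : ‖M.trace‖ ≤ Γ ^ (n + 2) :=
    ((hτ' (n + 1)).trans Γ2).trans (le_self_pow₀ Γ1 (by omega))
  set e : Fin 2 → ℂ := ![0, 1]
  have ne : ‖e‖ ≤ 1 := by simpa using norm_pair 0 1
  obtain ⟨ψ, s1, s2⟩ := exists_solution (q := q) (E := E) hp ω m ((M.trace • (1 : M2) - M) *ᵥ e)
  obtain ⟨o1, o2⟩ := occZ_append.1 hm
  have p1 := propagate (q := q) (E := E) (S := 0) hp ω ψ w m o1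
    (fun i _ => by rw [s2 _ (by omega), norm_zero])
  have p2 := propagate (q := q) (E := E) (S := 0) hp ω ψ w _ o2
    (fun i _ => by rw [s2 _ (by omega), norm_zero])
  rw [mul_zero, norm_le_zero_iff, sub_eq_zero] at p1 p2
  rw [s1, mulVec_mulVec, mul_adj (det_MW hp w), one_mulVec] at p1
  rw [p1] at p2
  set c := m + (k : ℤ) with hc
  have G0 : 0 < Γ ^ (n + 2) := by positivity
  have q1 : ‖Ps p ω ψ (c - k)‖ ≤ 2 * Γ ^ (n + 2) := by
    rw [hc, add_sub_cancel_right, s1]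
    refine (linfty_opNorm_mulVec _ _).trans ?_
    have := norm_adj_le M
    nlinarith [norm_nonneg (M.trace • (1 : M2) - M), norm_nonneg e]
  have q2 : ‖Ps p ω ψ (c + k)‖ ≤ Γ ^ (n + 2) := by
    rw [p2]
    refine (linfty_opNorm_mulVec _ _).trans ?_
    nlinarith [norm_nonneg M, norm_nonneg e]
  have est : ∀ j, 1 ≤ j → j ≤ k → NN ψ c j
      ≤ (C * 2 * (‖ψ (c - j)‖ + ‖ψ (c - j - 1)‖ + ‖ψ (c + j)‖ + ‖ψ (c + j - 1)‖)) ^ 2 :=
    fun j h1 h2 => cutoff_est hp ω hC0 hC ψ c j h1 fun n hn => s2 n (by omega)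
  have mono : Monotone (NN ψ c) := monotone_nat_of_le_succ fun j => by
    rw [NN_succ]; have := sq_nonneg ‖ψ (c - j - 1)‖; have := sq_nonneg ‖ψ (c + j)‖; linarith
  have N0 : ∀ j, 0 ≤ NN ψ c j := fun j => sum_nonneg fun _ _ => sq_nonneg _
  have grow : ∀ j, j + 1 ≤ k → (1 + Λ⁻¹) * NN ψ c j ≤ NN ψ c (j + 2) := by
    intro j hj
    have h1 := est (j + 1) (by omega) hj
    have h2 := NN_succ ψ c j
    have h3 := NN_succ ψ c (j + 1)
    have e1 : c - ((j + 1 : ℕ) : ℤ) = c - j - 1 := by push_cast; ring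
    have e2 : c + ((j + 1 : ℕ) : ℤ) - 1 = c + j := by push_cast; ring
    rw [e2] at h1
    rw [e1] at h1 h3
    set x1 := ‖ψ (c - j - 1)‖
    set x2 := ‖ψ (c - j - 1 - 1)‖
    set x3 := ‖ψ (c + ((j + 1 : ℕ) : ℤ))‖
    set x4 := ‖ψ (c + j)‖
    have h4 : (x1 + x2 + x3 + x4) ^ 2 ≤ 4 * (x1 ^ 2 + x2 ^ 2 + x3 ^ 2 + x4 ^ 2) := by
      nlinarith [sq_nonneg (x1 - x2), sq_nonneg (x1 - x3), sq_nonneg (x1 - x4), sq_nonneg (x2 - x3),
        sq_nonneg (x2 - x4), sq_nonneg (x3 - x4)]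
    have h5 := mul_le_mul_of_nonneg_left h4 (sq_nonneg (C * 2))
    have h6 : 0 ≤ x1 ^ 2 + x2 ^ 2 + x3 ^ 2 + x4 ^ 2 := by positivity
    have h7 : NN ψ c j ≤ Λ * (x1 ^ 2 + x2 ^ 2 + x3 ^ 2 + x4 ^ 2) := by
      have := mono (Nat.le_succ j)
      rw [mul_pow] at h1
      rw [hΛ]
      linarith
    have h8 : Λ⁻¹ * NN ψ c j ≤ x1 ^ 2 + x2 ^ 2 + x3 ^ 2 + x4 ^ 2 := by
      rw [inv_mul_le_iff₀ (by linarith)]; exact h7
    linarith
  have N1 : 1 ≤ NN ψ c 1 := by
    have h1 := NN_succ ψ c 0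
    have h2 : ψ (c - 1) = 1 := congrFun p1 1
    simp only [Nat.cast_zero, sub_zero, h2, norm_one, zero_add] at h1
    have := N0 0
    have := sq_nonneg ‖ψ (c + 0)‖
    linarith
  have expo : ∀ i, 2 * i + 1 ≤ k → (1 + Λ⁻¹) ^ i ≤ NN ψ c (2 * i + 1) := by
    intro i
    induction i with
    | zero => intro _; simpa using N1
    | succ i ih =>
      intro hi
      have h1 := grow (2 * i + 1) (by omega)
      have h2 := mul_le_mul_of_nonneg_left (ih (by omega)) (show 0 ≤ 1 + Λ⁻¹ by linarith)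
      rw [pow_succ']
      exact h2.trans h1
  have u1 := (expo _ hk).trans ((mono hk).trans (est k (by omega) le_rfl))
  have u2 : ‖ψ (c - k)‖ + ‖ψ (c - k - 1)‖ + ‖ψ (c + k)‖ + ‖ψ (c + k - 1)‖ ≤ 9 * Γ ^ (n + 2) := by
    have := le_norm_Ps hp ω ψ (c - k)
    have := le_norm_Ps hp ω ψ (c + k)
    linarith [this.1]
  have u3 : (C * 2 * (‖ψ (c - k)‖ + ‖ψ (c - k - 1)‖ + ‖ψ (c + k)‖ + ‖ψ (c + k - 1)‖)) ^ 2
      ≤ (C * 2 * (9 * Γ ^ (n + 2))) ^ 2 := by
    have : 0 ≤ C * 2 := mul_nonneg hC0 (by linarith)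
    gcongr
  have u4 : (C * 2 * (9 * Γ ^ (n + 2))) ^ 2 ≤ 21 * Λ * (Γ ^ 2) ^ (n + 2) := by
    have : (C * 2 * (9 * Γ ^ (n + 2))) ^ 2 = 81 * (C * 2) ^ 2 * (Γ ^ 2) ^ (n + 2) := by ring
    rw [this, hΛ]
    have : 0 < (Γ ^ 2) ^ (n + 2) := by positivity
    nlinarith
  have u5 : 21 * Λ * (Γ ^ 2) ^ (n + 2) < (1 + Λ⁻¹) ^ (r * (n + 3)) := by
    rw [pow_mul, pow_succ' _ (n + 2)]
    have a1 : 0 < Γ ^ 2 := by positivity
    exact mul_lt_mul (by linarith) (pow_le_pow_left₀ a1.le (by linarith) _) (by positivity)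
      (by positivity)
  linarith

end Pool.Agent.MP_47b204_mp.H4D
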