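import Pool.Agent.MP_47b204_mp.H4D.Fam
import Pool.Agent.MP_47b204_mp.H4D.Spec

set_option autoImplicit false

namespace Pool.Agent.MP_47b204_mp.H4D

open Filter Topology Set
open Pool.Agent.MP_47b204_mp.H45 hiding bb_of_esc not_bb_of_bd

lemma exists_cod' {W : ℝ} (hW : 100 ≤ W) {s : ℝ → St} (hs : Continuous s) {u v : ℝ}
    (hR : ∀ x ∈ uIcc u v, |(s x).1| ≤ 1 ∧ 1 ≤ (s x).2.1 ∧ VOk W (fv (s x)))
    (hu : (s u).2.2 ≤ -1) (hv : 1 ≤ (s v).2.2) (ι : ℕ → Fin 3) :
    ∃ x ∈ uIcc u v, Cod W (s x) ι := by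
  obtain ⟨u', v', h1, h2, h3, h4⟩ := cross_both (f := fun x => (s x).2.2) (by fun_prop) hu hv
  have hm : ∀ x ∈ Icc (-1 : ℝ) 1, u' + (x + 1) / 2 * (v' - u') ∈ uIcc u' v' := by
    rintro x ⟨x1, x2⟩
    rw [mem_uIcc]
    rcases le_total u' v' with h | h
    · left; constructor <;> nlinarith
    · right; constructor <;> nlinarith
  obtain ⟨x, hx, hc⟩ := exists_cod hW (s := fun x => s (u' + (x + 1) / 2 * (v' - u')))
    (by fun_prop) (fun x hx => by
      obtain ⟨a1, a2, a3⟩ := hR _ (h1 (hm x hx))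
      exact ⟨Rg_of hW a3 a1 (h4 _ (hm x hx)) a2, a3⟩)
    (by simpa using h2) (by simpa using h3) ι
  exact ⟨_, h1 (hm x hx), hc⟩

lemma fv_tr (s : St) : fv (tr s) = fv s := by
  simp only [fv, tr]; ring

lemma bd_of_tr {s : St} (h : Bd (tr s)) : Bd s := by
  obtain ⟨C, hC⟩ := h
  refine ⟨max C |XX s 0|, fun n => ?_⟩
  cases n with
  | zero => exact le_max_right _ _
  | succ n => rw [XX_succ]; exact (hC n).trans (le_max_left _ _)

lemma esc_of_tr {s : St} (h : Esc (tr s)) : Esc s := by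
  unfold Esc at *
  simp only [← XX_succ] at h
  exact (tendsto_add_atTop_iff_nat 1).1 h

lemma esc_of_sg {s : St} (h : Esc (sg 1 (-1) s)) : Esc s := by
  unfold Esc at *
  simpa only [abs_XX_sg _ 1 (-1) s (by norm_num) (by norm_num)] using h

lemma dm_union_le {s t : Set ℝ} {x : ℝ} (hs : dm s ≤ x) (ht : dm t ≤ x) : dm (s ∪ t) ≤ x := by
  rw [dm, dimH_union, ENNReal.toReal_max (Real.dimH_ne_top s) (Real.dimH_ne_top t)]
  exact max_le hs ht

/-- the state at energy `E` -/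
noncomputable def st (p q E : ℝ) : St := init p q ((E - q) / (2 * p))

/-- the band near `q` -/
noncomputable def gA (p q E : ℝ) : St := tr (tr (st p q E))

/-- the band near `-1` -/
noncomputable def gB (p q E : ℝ) : St := tr (tr (tr (st p q E)))

/-- the bands near `0` of the diagonal model -/
noncomputable def gC (q E : ℝ) : St := sg 1 (-1) (tr (st 1 q E))

/-- parameters close to the diagonal model at large coupling -/
def Par (p q : ℝ) : Prop := Near p ∧ 600 ≤ q ∧ |q * DD p| ≤ 1 / 2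

variable {p q : ℝ}

lemma gA_eq (hp : p ≠ 0) (q E : ℝ) : gA p q E =
    ((E - q) / (2 * p), E / 2, (E - q) / (2 * p) * E - (p + 1 / p) / 2) := by
  simp only [gA, st, tr, init, Prod.mk.injEq, true_and]
  constructor <;> field_simp <;> ring

lemma gB_eq (hp : p ≠ 0) (q E : ℝ) : gB p q E =
    (E / 2, (E - q) / (2 * p) * E - (p + 1 / p) / 2,
      (E - q) / (2 * p) * (E ^ 2 - 1) - (p + 1 / p) / 2 * E) := by
  have := gA_eq hp q E
  rw [gA] at this
  rw [gB, this]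
  simp only [tr, Prod.mk.injEq, true_and]
  ring

lemma gC_eq (q E : ℝ) : gC q E = (1, (q - E) / 2, -E / 2) := by
  simp only [gC, st, tr, init, sg, Prod.mk.injEq]
  refine ⟨by norm_num, by ring, by ring⟩

lemma fv_st (hp : p ≠ 0) (q E : ℝ) :
    fv (st p q E) = DD p ^ 2 + (E - q) / (2 * p) * q * DD p + q ^ 2 / 4 := fv_init hp q _

lemma Near.half (h : Near p) : 1 ≤ (p + 1 / p) / 2 ∧ (p + 1 / p) / 2 ≤ 2 := by
  obtain ⟨h1, h2⟩ := h
  have p0 : 0 < p := by linarith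
  have a1 : 1 / p ≤ 2 := by rw [div_le_iff₀ p0]; linarith
  have a2 : 2 - p ≤ 1 / p := by rw [le_div_iff₀ p0]; nlinarith [sq_nonneg (p - 1)]
  constructor <;> linarith

lemma Par.vok (h : Par p q) {E : ℝ} (hE : |E - q| ≤ q + 2) : VOk (q / 2 - 2) (fv (st p q E)) := by
  obtain ⟨⟨h1, h2⟩, h3, h4⟩ := h
  have p0 : 0 < p := by linarith
  rw [fv_st p0.ne']
  have a1 : |(E - q) / (2 * p)| ≤ q + 2 := by
    rw [abs_div, abs_of_pos (a := 2 * p) (by linarith)]
    exact (div_le_self (abs_nonneg _) (by linarith)).trans hE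
  have a2 := abs_le.1 (abs_mul_le a1 h4)
  have a3 : |DD p| ≤ 1 := by
    rw [abs_mul, abs_of_pos (a := q) (by linarith)] at h4
    nlinarith [abs_nonneg (DD p)]
  have a4 : DD p ^ 2 ≤ 1 := by rw [← sq_abs]; nlinarith [abs_nonneg (DD p)]
  have a5 := sq_nonneg (DD p)
  constructor <;> nlinarith

lemma lip_st (hp : p ≠ 0) (q E E' : ℝ) :
    |fv (st p q E) - fv (st p q E')| ≤ |q * DD p / (2 * p)| * |E - E'| := by
  rw [← abs_mul, fv_st hp, fv_st hp]
  apply le_of_eq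
  congr 1
  ring

lemma cone_aux {E E' M x y C : ℝ} (h : Near p) (hM : 4 ≤ M) (hC : M ≤ C) (hx : |x| ≤ M)
    (hy : |y| ≤ M) : ‖((x / M, y / M) : ℝ × ℝ)‖ ≤ 1 ∧ 1 * |E - E'| ≤ |(E - E') * M / (2 * p)| ∧
      |(E - E') * M / (2 * p)| ≤ C * |E - E'| := by
  obtain ⟨h1, h2⟩ := h
  have M0 : 0 < M := by linarith
  have e0 := abs_nonneg (E - E')
  refine ⟨?_, ?_, ?_⟩
  · simp only [Prod.norm_def, Real.norm_eq_abs, max_le_iff, abs_div, abs_of_pos M0, div_le_one M0]
    exact ⟨hx, hy⟩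
  · rw [abs_div, abs_mul, abs_of_pos M0, abs_of_pos (a := 2 * p) (by linarith),
      le_div_iff₀ (by linarith)]
    nlinarith
  · rw [abs_div, abs_mul, abs_of_pos M0, abs_of_pos (a := 2 * p) (by linarith)]
    refine (div_le_self (by positivity) (by linarith)).trans ?_
    nlinarith

lemma Par.pfA (h : Par p q) : PF (q / 2 - 2) (gA p q) (Icc (q - 2 * p) (q + 2 * p)) 1 (q + 8) := by
  have ⟨⟨h1, h2⟩, h3, h4⟩ := h
  have p0 : 0 < p := by linarith
  obtain ⟨k1, k2⟩ := h.1.half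
  refine ⟨by linarith, one_pos, fun ι => ?_, fun E hE E' hE' => ?_⟩
  · rw [← uIcc_of_le (by linarith)]
    refine exists_cod' (by linarith) (by simp only [funext (gA_eq p0.ne' q)]; fun_prop)
      (fun x hx => ?_) ?_ ?_ ι
    · rw [uIcc_of_le (by linarith)] at hx
      obtain ⟨x1, x2⟩ := hx
      refine ⟨?_, ?_, ?_⟩
      · rw [gA_eq p0.ne', abs_div, abs_of_pos (a := 2 * p) (by linarith), div_le_one (by linarith),
          abs_le]
        constructor <;> linarith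
      · rw [gA_eq p0.ne']; simp only; linarith
      · rw [gA, fv_tr, fv_tr]
        exact h.vok (abs_le.2 ⟨by linarith, by linarith⟩)
    · rw [gA_eq p0.ne', show (q - 2 * p - q) / (2 * p) = -1 by field_simp; ring]
      simp only; linarith
    · rw [gA_eq p0.ne', show (q + 2 * p - q) / (2 * p) = 1 by field_simp; ring]
      simp only; linarith
  · obtain ⟨x1, x2⟩ := hE
    obtain ⟨y1, y2⟩ := hE'
    obtain ⟨a1, a2, a3⟩ := cone_aux (E := E) (E' := E') (M := E + E' - q) (x := 1) (y := p)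
      (C := q + 8) h.1 (by linarith) (by linarith) (by rw [abs_one]; linarith)
      (by rw [abs_of_pos p0]; linarith)
    refine ⟨_, _, a1, ?_, a2, a3⟩
    have : E + E' - q ≠ 0 := by linarith
    rw [gA_eq p0.ne', gA_eq p0.ne']
    simp only [Prod.mk_sub_mk, Prod.smul_mk, smul_eq_mul, Prod.mk.injEq]
    refine ⟨?_, ?_, ?_⟩ <;> field_simp <;> ring

lemma Par.pfB (h : Par p q) : PF (q / 2 - 2) (gB p q) (Icc (-2) (-(3 / 4))) 1 (4 * q + 12) := by
  have ⟨⟨h1, h2⟩, h3, h4⟩ := h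
  have p0 : 0 < p := by linarith
  obtain ⟨k1, k2⟩ := h.1.half
  have hb : ∀ x, x ≤ 0 → (x - q) / (2 * p) ≤ -100 := fun x hx => by
    rw [div_le_iff₀ (by linarith)]; linarith
  refine ⟨by linarith, one_pos, fun ι => ?_, fun E hE E' hE' => ?_⟩
  · rw [← uIcc_of_le (by linarith)]
    refine exists_cod' (by linarith) (by simp only [funext (gB_eq p0.ne' q)]; fun_prop)
      (fun x hx => ?_) ?_ ?_ ι
    · rw [uIcc_of_le (by linarith)] at hx
      obtain ⟨x1, x2⟩ := hx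
      refine ⟨?_, ?_, ?_⟩
      · rw [gB_eq p0.ne', abs_le]
        constructor <;> linarith
      · rw [gB_eq p0.ne']
        have := hb x (by linarith)
        simp only; nlinarith
      · rw [gB, fv_tr, fv_tr, fv_tr]
        exact h.vok (abs_le.2 ⟨by linarith, by linarith⟩)
    · rw [gB_eq p0.ne']
      have := hb (-2) (by linarith)
      simp only; linarith
    · rw [gB_eq p0.ne']
      have := hb (-(3 / 4)) (by linarith)
      simp only; linarith
  · obtain ⟨x1, x2⟩ := hE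
    obtain ⟨y1, y2⟩ := hE'
    have b1 : 0 ≤ E * E' := by nlinarith
    have b2 : E * E' ≤ 4 := by nlinarith
    have b3 : E ^ 2 ≤ 4 := by nlinarith
    have b4 : E' ^ 2 ≤ 4 := by nlinarith
    have b5 : p ^ 2 ≤ 4 := by nlinarith
    have b6 : 3 / 2 * q ≤ -(q * (E + E')) := by nlinarith
    have b7 : -(q * (E + E')) ≤ 4 * q := by nlinarith
    have b8 := sq_nonneg E
    have b9 := sq_nonneg E'
    have b0 := sq_nonneg p
    obtain ⟨a1, a2, a3⟩ := cone_aux (E := E) (E' := E')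
      (M := E ^ 2 + E * E' + E' ^ 2 - 2 - q * (E + E') - p ^ 2) (x := p) (y := E + E' - q)
      (C := 4 * q + 12) h.1 (by linarith) (by linarith) (by rw [abs_of_pos p0]; linarith)
      (abs_le.2 ⟨by linarith, by linarith⟩)
    refine ⟨_, _, a1, ?_, a2, a3⟩
    have : E ^ 2 + E * E' + E' ^ 2 - 2 - q * (E + E') - p ^ 2 ≠ 0 := by linarith
    rw [gB_eq p0.ne', gB_eq p0.ne']
    simp only [Prod.mk_sub_mk, Prod.smul_mk, smul_eq_mul, Prod.mk.injEq]
    generalize hM : E ^ 2 + E * E' + E' ^ 2 - 2 - q * (E + E') - p ^ 2 = M at this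
    refine ⟨?_, ?_, ?_⟩
    · field_simp
    · field_simp; ring
    · rw [← hM]; field_simp; ring

lemma par_one (hq : 600 ≤ q) : Par 1 q := ⟨⟨by norm_num, by norm_num⟩, hq, by simp [DD]⟩

lemma fv_gC (q E : ℝ) : fv (gC q E) = fv (st 1 q E) := by
  rw [← fv_tr (st 1 q E), gC]
  simp only [fv, sg]; ring

lemma pfC (hq : 600 ≤ q) : PF (q / 2 - 2) (gC q) (Icc (-2) 2) (1 / 2) (1 / 2) := by
  refine ⟨by linarith, by norm_num, fun ι => ?_, fun E hE E' hE' => ?_⟩
  · rw [← uIcc_of_ge (by linarith)]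
    refine exists_cod' (by linarith) (by simp only [funext (gC_eq q)]; fun_prop)
      (fun x hx => ?_) ?_ ?_ ι
    · rw [uIcc_of_ge (by linarith)] at hx
      obtain ⟨x1, x2⟩ := hx
      refine ⟨by simp [gC_eq], ?_, ?_⟩
      · rw [gC_eq]; simp only; linarith
      · rw [fv_gC]
        exact (par_one hq).vok (abs_le.2 ⟨by linarith, by linarith⟩)
    · rw [gC_eq]; norm_num
    · rw [gC_eq]; norm_num
  · refine ⟨-(1 / 2) * (E - E'), (0, 1), by simp [Prod.norm_def], ?_, ?_, ?_⟩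
    · rw [gC_eq, gC_eq]
      simp only [Prod.mk_sub_mk, Prod.smul_mk, smul_eq_mul, Prod.mk.injEq]
      refine ⟨by ring, by ring, by ring⟩
    · rw [abs_mul, abs_neg, abs_of_pos (a := (1 / 2 : ℝ)) (by norm_num)]
    · rw [abs_mul, abs_neg, abs_of_pos (a := (1 / 2 : ℝ)) (by norm_num)]

variable {v ω : ℤ → Bool}

lemma mem_spec_of_bd (hp : Near p) (hv : ∀ k : ℕ, v k = fibSeq k) (hω : ω ∈ hull v) {E : ℝ}
    (h : Bd (st p q E)) : E ∈ spec p q ω := by
  have := not_bb_of_bd hp hv hω h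
  have p0 : p ≠ 0 := by linarith [hp.1]
  rwa [show 2 * p * ((E - q) / (2 * p)) + q = E by field_simp; ring, ← mem_spec_iff] at this

lemma not_esc_of_mem (hp : Near p) (hv : ∀ k : ℕ, v k = fibSeq k) (hω : ω ∈ hull v) {E : ℝ}
    (h : E ∈ spec p q ω) : ¬ Esc (st p q E) := fun he => by
  have := bb_of_esc hp hv hω he
  have p0 : p ≠ 0 := by linarith [hp.1]
  rw [show 2 * p * ((E - q) / (2 * p)) + q = E by field_simp; ring] at this
  exact (mem_spec_iff p q ω E).1 h this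

/-- the upper bound for the diagonal model -/
lemma dm_spec_one (hq : 600 ≤ q) (hv : ∀ k : ℕ, v k = fibSeq k) (hω : ω ∈ hull v) :
    dm (spec 1 q ω) ≤ GG (q ^ 2 / 4) := by
  have P := par_one hq
  have hW : (100 : ℝ) ≤ q / 2 - 2 := by linarith
  have e : ∀ E, fv (st 1 q E) = q ^ 2 / 4 := fun E => by rw [fv_st one_ne_zero]; simp [DD]
  have hV : VOk (q / 2 - 2) (q ^ 2 / 4) := by constructor <;> nlinarith
  refine (dm_mono (t := CS _ _ _ ∪ CS _ _ _) fun E hE => ?_).trans (dm_union_le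
    (P.pfA.dm_le_GG hV fun E => by rw [gA, fv_tr, fv_tr, e])
    ((pfC hq).dm_le_GG hV fun E => by rw [fv_gC, e]))
  have ne := not_esc_of_mem P.1 hv hω hE
  by_cases h1 : |E| ≤ 2
  · right
    have h2 := abs_le.1 h1
    have hv' : VOk (q / 2 - 2) (fv (gC q E)) := by rwa [fv_gC, e]
    refine ⟨h2, (esc_or_cod hW hv' (Rg_of hW hv' (by simp [gC_eq]) ?_ ?_)).resolve_left
      fun he => ne (esc_of_tr (esc_of_sg he))⟩
    · rw [gC_eq, abs_le]; constructor <;> simp only <;> linarith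
    · rw [gC_eq]; simp only; linarith
  left
  push Not at h1
  have h1' : 1 < |E / 2| := by rw [abs_div, abs_two]; linarith
  have h2 : |(E - q) / 2| ≤ 1 := by
    by_contra h2
    push Not at h2
    refine ne (esc_of_tr (esc_of_sg ?_))
    change Esc (gC q E)
    rw [gC_eq]
    have a1 : |(q - E) / 2| = |(E - q) / 2| := by rw [← abs_neg]; congr 1; ring
    have a2 : |-E / 2| = |E / 2| := by rw [← abs_neg]; congr 1; ring
    refine esc_of_large (by rwa [a1]) (by rwa [a2]) ?_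
    simp only [a1, a2, abs_one]
    nlinarith
  have h3 := abs_le.1 h2
  have hv' : VOk (q / 2 - 2) (fv (gA 1 q E)) := by rwa [gA, fv_tr, fv_tr, e]
  have a1 : |(gA 1 q E).1| ≤ 1 := by rw [gA_eq one_ne_zero]; simpa using h2
  have a2 : (gA 1 q E).2.1 = E / 2 := by rw [gA_eq one_ne_zero]
  refine ⟨⟨by linarith, by linarith⟩, (esc_or_cod hW hv' (Rg_of hW hv' a1 ?_ ?_)).resolve_left
    fun he => ne (esc_of_tr (esc_of_tr he))⟩
  · by_contra h4
    push Not at h4
    exact ne (esc_of_tr (esc_of_tr (esc_of_large (s := gA 1 q E) (by rwa [a2]) h4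
      (by rw [a2]; nlinarith))))
  · rw [a2]; linarith

/-- lower bound from the band near `q` -/
lemma Par.lowA (h : Par p q) (hv : ∀ k : ℕ, v k = fibSeq k) (hω : ω ∈ hull v) :
    ∃ κ : ℝ, 1 ≤ κ ∧ κ ≤ 4 ∧ GG (DD p ^ 2 + κ * DD p + q ^ 2 / 4) ≤ dm (spec p q ω) := by
  have ⟨⟨h1, h2⟩, h3, h4⟩ := h
  have p0 : 0 < p := by linarith
  obtain ⟨k1, k2⟩ := h.1.half
  have hW := h.pfA.hW
  obtain ⟨E, ⟨x1, x2⟩, hc⟩ := h.pfA.ex fun _ => 1
  have e : ∀ E, fv (gA p q E) = fv (st p q E) := fun E => by rw [gA, fv_tr, fv_tr]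
  have a1 := h.pfA.GG_le (E0 := E) (fun E E' => by rw [e, e]; exact lip_st p0.ne' q E E')
    ⟨⟨x1, x2⟩, _, hc⟩ (by rw [e]; exact h.vok (abs_le.2 ⟨by linarith, by linarith⟩))
  rw [e, fv_st p0.ne'] at a1
  have a2 : 9 / 20 ≤ (gA p q E).2.2 := (b_range hW (hc 0)).2.1 (hc 1)
  have a3 : (gA p q E).2.2 ≤ 1 := (abs_le.1 (hc 0).2.1).2
  rw [gA_eq p0.ne'] at a2 a3
  simp only at a2 a3
  have a4 : E = 2 * p * ((E - q) / (2 * p)) + q := by field_simp; ring
  generalize (E - q) / (2 * p) = b at a1 a2 a3 a4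
  have b0 : 0 < b := by
    by_contra hb
    push Not at hb
    nlinarith
  have b1 : b ≤ 1 / 100 := by nlinarith
  refine ⟨b * q, by nlinarith, by nlinarith, a1.trans (dm_mono ?_)⟩
  rintro E ⟨-, ι, hι⟩
  exact mem_spec_of_bd h.1 hv hω (bd_of_tr (bd_of_tr (hι.bd hW)))

/-- lower bound from the band near `-1` -/
lemma Par.lowB (h : Par p q) (hv : ∀ k : ℕ, v k = fibSeq k) (hω : ω ∈ hull v) :
    ∃ κ : ℝ, 2 ≤ κ ∧ κ ≤ 2 * q ^ 2 ∧ GG (DD p ^ 2 - κ * DD p + q ^ 2 / 4) ≤ dm (spec p q ω) := by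
  have ⟨⟨h1, h2⟩, h3, h4⟩ := h
  have p0 : 0 < p := by linarith
  have hW := h.pfB.hW
  obtain ⟨E, ⟨x1, x2⟩, hc⟩ := h.pfB.ex fun _ => 1
  have e : ∀ E, fv (gB p q E) = fv (st p q E) := fun E => by rw [gB, fv_tr, fv_tr, fv_tr]
  have a1 := h.pfB.GG_le (E0 := E) (fun E E' => by rw [e, e]; exact lip_st p0.ne' q E E')
    ⟨⟨x1, x2⟩, _, hc⟩ (by rw [e]; exact h.vok (abs_le.2 ⟨by linarith, by linarith⟩))
  rw [e, fv_st p0.ne'] at a1
  have b1 : (E - q) / (2 * p) ≤ -100 := by rw [div_le_iff₀ (by linarith)]; linarith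
  have b2 : -(2 * q) ≤ (E - q) / (2 * p) := by rw [le_div_iff₀ (by linarith)]; nlinarith
  generalize (E - q) / (2 * p) = b at a1 b1 b2
  refine ⟨-(b * q), by nlinarith, by nlinarith, ?_⟩
  rw [show DD p ^ 2 - -(b * q) * DD p = DD p ^ 2 + b * q * DD p by ring]
  refine a1.trans (dm_mono ?_)
  rintro E ⟨-, ι, hι⟩
  exact mem_spec_of_bd h.1 hv hω (bd_of_tr (bd_of_tr (bd_of_tr (hι.bd hW))))

end Pool.Agent.MP_47b204_mp.H4D
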